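import Mathlib
import Pool.Agent.Run7.h80.Sal.Fin
import Pool.Agent.H196R3.Parry

/-!
# Parry powers and Salem numbers with a decomposable trace polynomial

Let `β` be a Salem number (or a quadratic unit) such that the minimal polynomial of `β + β⁻¹` is a
composition `g(k(x))` of polynomials with integer coefficients, `deg k ≥ 2` and `N = deg g ≥ 3`. Then
`β ≥ exp 0.0042` and `β ≥ (exp ((N - 1) / 175) - 4) / 4`; in particular `β > 1.18`, which exceeds
Lehmer's number `1.17628...`, as soon as `N ≥ 380`. Consequently, for a Perron number `β` below one of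
these bounds, with `β⁻¹` conjugate to `β` and with a decomposable trace polynomial, only finitely many
powers of `β` are Parry numbers.

Method. Let `m = deg k` and let `G(ξ)` be the logarithm of the Mahler measure of
`X ^ m (k(X + 1 / X) - ξ)`. The function `G` vanishes at all zeros of `g` but one, `ξ₁ = k(β + 1 / β)`,
and `G(ξ₁) = log β`. The polynomial `k(X + 1 / X)` has a middle coefficient, since otherwise all numbers
`ζ β` with `ζ ^ m = 1` would be conjugates of `β`. By an energy estimate for such families the other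
`N - 1` zeros of `g` lie in a real interval of length less than `2 √2`, where a monic polynomial `Φ` of
degree `7` with integer coefficients satisfies `|Φ| ≤ 0.96`. The resultant of `g` and `Φ` is a nonzero
integer, which gives the bound.
-/

set_option autoImplicit false

open Polynomial

namespace Pool.Agent.Results.MP_1f45fc_nt.DecomposableTrace

/-- `β` is a Perron number -/
def IsPerron (β : ℝ) : Prop :=
  1 < β ∧ IsIntegral ℤ β ∧ ∀ z : ℂ, aeval z (minpoly ℤ β) = 0 → z ≠ (β : ℂ) → ‖z‖ < β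

/-- `β > 1` is an algebraic integer, the other conjugates lie in the closed unit disc and `β⁻¹` is one
of them: `β` is a Salem number or a quadratic unit -/
def IsSalem (β : ℝ) : Prop :=
  1 < β ∧ IsIntegral ℤ β ∧ aeval β⁻¹ (minpoly ℤ β) = 0 ∧
    ∀ z : ℂ, aeval z (minpoly ℤ β) = 0 → z ≠ (β : ℂ) → ‖z‖ ≤ 1

/-- the set of the `m ≥ 1` such that `β ^ m` is a Parry number -/
def parryPowers (β : ℝ) : Set ℕ :=
  {m : ℕ | 1 ≤ m ∧ Set.Finite (Set.range (fun k : ℕ =>
    (fun y : ℝ => Int.fract (β ^ m * y))^[k] (1 : ℝ)))}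

/-- the minimal polynomial of the trace `β + β⁻¹` is a composition `g(k(x))` with `g` of degree `N` and
`k` of degree at least two, both with integer coefficients -/
def TraceComposition (β : ℝ) (N : ℕ) : Prop :=
  ∃ g k : ℤ[X], minpoly ℤ (β + β⁻¹) = g.comp k ∧ g.natDegree = N ∧ 2 ≤ k.natDegree

lemma num_bound {N : ℕ} (hN : 380 ≤ N) : (1.18 : ℝ) < (Real.exp (((N : ℝ) - 1) / 175) - 4) / 4 := by
  have h1 : (379 / 175 : ℝ) ≤ ((N : ℝ) - 1) / 175 := by
    have : (380 : ℝ) ≤ N := by exact_mod_cast hN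
    linarith
  have h2 := Real.exp_le_exp.2 h1
  have h3 : (8.7205 : ℝ) ≤ Real.exp (379 / 175) := by
    have e1 : (379 / 175 : ℝ) = 1 + 1 + 29 / 175 := by norm_num
    have e2 := Real.exp_one_gt_d9
    have e3 : (1.1802 : ℝ) ≤ Real.exp (29 / 175) := by
      have e4 := Real.sum_le_exp_of_nonneg (x := 29 / 175) (by norm_num) 5
      refine le_trans ?_ e4
      simp only [Finset.sum_range_succ, Finset.sum_range_zero, Nat.factorial]
      norm_num
    rw [e1, Real.exp_add, Real.exp_add]
    have e5 : (2.7182818283 : ℝ) * 2.7182818283 ≤ Real.exp 1 * Real.exp 1 :=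
      mul_le_mul e2.le e2.le (by norm_num) (by positivity)
    calc (8.7205 : ℝ) ≤ (2.7182818283 * 2.7182818283) * 1.1802 := by norm_num
      _ ≤ (Real.exp 1 * Real.exp 1) * Real.exp (29 / 175) :=
        mul_le_mul e5 e3 (by norm_num) (by positivity)
  linarith

/-- **Main result.** -/
theorem result :
    (∀ (β : ℝ) (N : ℕ), 3 ≤ N → TraceComposition β N → IsSalem β →
      Real.exp 0.0042 ≤ β ∧ (Real.exp (((N : ℝ) - 1) / 175) - 4) / 4 ≤ β ∧
      (380 ≤ N → 1.18 < β)) ∧
    (∀ (β : ℝ) (N : ℕ), 3 ≤ N → TraceComposition β N → IsPerron β →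
      aeval β⁻¹ (minpoly ℤ β) = 0 →
      (β < Real.exp 0.0042 ∨ β < (Real.exp (((N : ℝ) - 1) / 175) - 4) / 4 ∨
        (β ≤ 1.18 ∧ 380 ≤ N)) → (parryPowers β).Finite) := by
  have hS : ∀ (β : ℝ) (N : ℕ), 3 ≤ N → TraceComposition β N → IsSalem β →
      Real.exp 0.0042 ≤ β ∧ (Real.exp (((N : ℝ) - 1) / 175) - 4) / 4 ≤ β ∧
      (380 ≤ N → 1.18 < β) := by
    rintro β N hN ⟨g, k, hgk, hg, hk⟩ ⟨h1, h2, h3, h4⟩
    obtain ⟨e1, e2⟩ := Pool.Agent.Run7.h80.Sal.salem_bounds h1 h2 h3 h4 hgk hk (by omega)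
    have h0 : 0 < β := by linarith
    have e3 : Real.exp 0.0042 ≤ β := by
      rw [← Real.exp_log h0]
      exact Real.exp_le_exp.2 e1
    have e4 : (Real.exp (((N : ℝ) - 1) / 175) - 4) / 4 ≤ β := by
      rw [hg] at e2
      have e5 := Real.exp_le_exp.2 e2
      rw [Real.exp_log (by linarith)] at e5
      linarith
    exact ⟨e3, e4, fun h5 => lt_of_lt_of_le (num_bound h5) e4⟩
  refine ⟨hS, ?_⟩
  rintro β N hN hT ⟨h1, h2, h3⟩ h4 hlt
  by_contra hinf
  have hinf' : (parryPowers β).Infinite := hinf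
  obtain ⟨e1, e2, e3⟩ := hS β N hN hT ⟨h1, h2, h4, fun z hz hne =>
    Pool.Agent.H196R3.Parry.conj_le_one h1 h2 h3 hinf' hz hne⟩
  rcases hlt with h5 | h5 | ⟨h5, h6⟩
  · linarith
  · linarith
  · linarith [e3 h6]

end Pool.Agent.Results.MP_1f45fc_nt.DecomposableTrace
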