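import Mathlib
import Pool.Agent.Run7.h22.Sal3

/-!
# Parry powers and trace fields with few Frobenius automorphisms

Let `β > 1` be a Perron number of degree `n` such that `β⁻¹` is a conjugate of `β`, and let `L` be the
Galois closure of the trace field `ℚ(β + β⁻¹)`. Let `p` be a prime number, `a ≥ 1`, and let `k` be the
number of the automorphisms of `L` which are congruent to `x ↦ x ^ (p ^ a)` modulo some prime ideal
above `p` (the `a`-th powers of the Frobenius automorphisms above `p`; `p` may be ramified in `L`). If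
`p ^ a k exp (3 √(log 2k)) log β < c n`, with an absolute constant `c > 0`, then only finitely many
powers of `β` are Parry numbers. Equivalently, `log β ≥ c n / (p ^ a k exp (3 √(log 2k)))` for all Salem
numbers `β` (and quadratic Pisot units).

Method. For a suitable automorphism `σ` of `L` the primes `𝔓` of `L` with `σ x ≡ x ^ q`, `q = p ^ a`,
contain a proportion `1 / k` of the norm of `p`. Modulo such a prime the trace `t = b + b⁻¹` of a
conjugate `b` of `β` satisfies `b ^ q + b ^ (-q) ≡ t ^ q ≡ σ t = c + c⁻¹`, so `u = b ^ q c⁻¹` or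
`v = b ^ q c` is congruent to `1` modulo each prime above `𝔓` of the splitting field of `β`, but this
choice depends on the prime. For `r` conjugates `b_j` with different traces all the products of the
differences of the monomials of degree less than `T` in `u_j` or `v_j`, over all `2 ^ r` choices, are
divisible by `𝔓`; the monomials are different since `β` is a Salem number, and the energy inequality
applied to all these families together gives the bound, with `r` about `2 √(log 2k)`.
-/

set_option autoImplicit false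

open Polynomial NumberField

namespace Pool.Agent.Results.MP_1f45fc_nt.FewFrobeniusTraceField

/-- `β` is a Perron number -/
def IsPerron (β : ℝ) : Prop :=
  1 < β ∧ IsIntegral ℤ β ∧ ∀ z : ℂ, aeval z (minpoly ℤ β) = 0 → z ≠ (β : ℂ) → ‖z‖ < β

/-- `β > 1` is an algebraic integer, the other conjugates lie in the closed unit disc and `β⁻¹` is one
of them: `β` is a Salem number or a quadratic unit -/
def IsSalem (β : ℝ) : Prop :=
  1 < β ∧ IsIntegral ℤ β ∧ aeval β⁻¹ (minpoly ℤ β) = 0 ∧
    ∀ z : ℂ, aeval z (minpoly ℤ β) = 0 → z ≠ (β : ℂ) → ‖z‖ ≤ 1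

/-- the set of the `m ≥ 1` such that `β ^ m` is a Parry number -/
def parryPowers (β : ℝ) : Set ℕ :=
  {m : ℕ | 1 ≤ m ∧ Set.Finite (Set.range (fun k : ℕ =>
    (fun y : ℝ => Int.fract (β ^ m * y))^[k] (1 : ℝ)))}

/-- the Galois closure of the trace field `ℚ(β + β⁻¹)` -/
abbrev L (β : ℝ) : Type := ((minpoly ℤ (β + β⁻¹)).map (Int.castRingHom ℚ)).SplittingField

/-- the automorphisms of `L β` which are congruent to the map `x ↦ x ^ (p ^ a)` modulo some prime
ideal above `p` -/
def frobenii (β : ℝ) (p a : ℕ) : Set (L β ≃ₐ[ℚ] L β) :=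
  {σ | ∃ 𝔓 : Ideal (𝓞 (L β)), 𝔓.IsPrime ∧ (p : 𝓞 (L β)) ∈ 𝔓 ∧
    ∀ x : 𝓞 (L β), σ • x - x ^ (p ^ a) ∈ 𝔓}

/-- the number of these automorphisms -/
noncomputable def k (β : ℝ) (p a : ℕ) : ℕ := (frobenii β p a).ncard

/-- **Main result.** -/
theorem result : ∃ c : ℝ, 0 < c ∧ ∀ p a : ℕ, p.Prime → 1 ≤ a →
    (∀ β : ℝ, IsSalem β → c * (minpoly ℤ β).natDegree ≤
      (p : ℝ) ^ a * (k β p a * Real.exp (3 * Real.sqrt (Real.log (2 * k β p a)))) * Real.log β) ∧
    (∀ β : ℝ, IsPerron β → aeval β⁻¹ (minpoly ℤ β) = 0 →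
      (p : ℝ) ^ a * (k β p a * Real.exp (3 * Real.sqrt (Real.log (2 * k β p a)))) * Real.log β <
        c * (minpoly ℤ β).natDegree → (parryPowers β).Finite) := by
  obtain ⟨C, hC, h⟩ := Pool.Agent.Run7.h22.salem_main
  have hS : ∀ p a : ℕ, p.Prime → 1 ≤ a → ∀ β : ℝ, IsSalem β →
      1 / C * (minpoly ℤ β).natDegree ≤
      (p : ℝ) ^ a * (k β p a * Real.exp (3 * Real.sqrt (Real.log (2 * k β p a)))) * Real.log β := by
    rintro p a hp ha β ⟨h1, h2, h3, h4⟩
    have : NumberField (L β) := Pool.Agent.Run7.h22.numberField_splitting _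
    have : IsGalois ℚ (L β) := Pool.Agent.Run7.h22.isGalois_splitting _
    have hspl : ((minpoly ℤ (β + β⁻¹)).map (Int.castRingHom ℚ)).IsSplittingField ℚ (L β) := by
      convert Polynomial.IsSplittingField.splittingField
        ((minpoly ℤ (β + β⁻¹)).map (Int.castRingHom ℚ))
      exact Subsingleton.elim _ _
    have h5 := h β h1 h2 h3 h4 p a hp ha (L β) hspl
    have h6 : ((minpoly ℤ β).natDegree : ℝ) ≤ C * (p : ℝ) ^ a *
      (k β p a * Real.exp (3 * Real.sqrt (Real.log (2 * k β p a)))) * Real.log β := h5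
    rw [one_div_mul_eq_div, div_le_iff₀ hC]
    refine h6.trans (le_of_eq ?_)
    ring
  refine ⟨1 / C, by positivity, fun p a hp ha => ⟨hS p a hp ha, ?_⟩⟩
  rintro β ⟨h1, h2, h3⟩ h4 hlt
  by_contra hinf
  have hinf' : (parryPowers β).Infinite := hinf
  have h5 := hS p a hp ha β ⟨h1, h2, h4, fun z hz hne =>
    Pool.Agent.H196R3.Parry.conj_le_one h1 h2 h3 hinf' hz hne⟩
  linarith

end Pool.Agent.Results.MP_1f45fc_nt.FewFrobeniusTraceField
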