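import Mathlib
import Pool.Agent.Run7.h22.Ins3

/-!
# Parry powers and inertia automorphisms of the trace field

Let `β > 1` be a Perron number of degree `n` such that `β⁻¹` is a conjugate of `β`, and let `L` be the
Galois closure of the trace field `ℚ(β + β⁻¹)`. Let `p` be any prime number, `e` its ramification index
in `L` (or an upper bound for it), `s ≥ 1`, and let `σ ≠ 1` be an automorphism of `L` which acts
trivially modulo `P ^ s`, where `P` is a prime ideal above `p`: an inertia automorphism if `s = 1`, an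
element of a higher ramification group if `s > 1`. Let `k` be the number of the conjugates of `σ` in the
Galois group of `L`, and let `w` be a natural number with `w ≥ k` and `w ≥ e k / s`. If
`w exp (3 √(log 2w)) log β < c n`, with an absolute constant `c > 0`, then only finitely many powers of
`β` are Parry numbers. Equivalently, `log β ≥ c n / (w exp (3 √(log 2w)))` for all Salem numbers `β`
(and quadratic Pisot units). The prime number `p` may be as large as one likes; the bound only depends
on `n`, `k`, `e` and `s`.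

Method. A conjugate of `σ` acts trivially modulo the `s`-th powers of primes `𝔓` of `L` which contain
a proportion `1 / (e k)` of the norm of `p`. The traces `t = b + b⁻¹` of the conjugates `b` of `β`
which are moved by `σ` are a proportion of at least `1 / k` of all the traces. Modulo `𝔓 ^ s` we have
`b + b⁻¹ ≡ σ t = c + c⁻¹`, hence `(b - c) (b c - 1) ≡ 0`, where `c` is a conjugate of `β` with another
trace. For `r` traces whose images under `σ` are different from all of them all the products of the
differences of the monomials of degree less than `T` in `b_j c_j⁻¹` or `b_j c_j`, over all `2 ^ r`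
choices, are divisible by `𝔓 ^ s`; the monomials are different since `β` is a Salem number, and the
energy inequality applied to all these families together gives the bound, with `r` about
`2 √(log 2w)`. If there are fewer such traces, then `n ≤ 6 r w`, and Dobrowolski's theorem is enough.
-/

set_option autoImplicit false

open Polynomial NumberField

namespace Pool.Agent.Results.MP_1f45fc_nt.InertiaTraceField

/-- `β` is a Perron number -/
def IsPerron (β : ℝ) : Prop :=
  1 < β ∧ IsIntegral ℤ β ∧ ∀ z : ℂ, aeval z (minpoly ℤ β) = 0 → z ≠ (β : ℂ) → ‖z‖ < β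

/-- `β > 1` is an algebraic integer, the other conjugates lie in the closed unit disc and `β⁻¹` is one
of them: `β` is a Salem number or a quadratic unit -/
def IsSalem (β : ℝ) : Prop :=
  1 < β ∧ IsIntegral ℤ β ∧ aeval β⁻¹ (minpoly ℤ β) = 0 ∧
    ∀ z : ℂ, aeval z (minpoly ℤ β) = 0 → z ≠ (β : ℂ) → ‖z‖ ≤ 1

/-- the set of the `m ≥ 1` such that `β ^ m` is a Parry number -/
def parryPowers (β : ℝ) : Set ℕ :=
  {m : ℕ | 1 ≤ m ∧ Set.Finite (Set.range (fun k : ℕ =>
    (fun y : ℝ => Int.fract (β ^ m * y))^[k] (1 : ℝ)))}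

/-- the Galois closure of the trace field `ℚ(β + β⁻¹)` -/
abbrev L (β : ℝ) : Type := ((minpoly ℤ (β + β⁻¹)).map (Int.castRingHom ℚ)).SplittingField

/-- the ramification indices of `p` in `L β` are at most `e` -/
def RamificationLE (β : ℝ) (p e : ℕ) : Prop :=
  ∀ P : Ideal (𝓞 (L β)), P.IsPrime → (p : 𝓞 (L β)) ∈ P → (p : 𝓞 (L β)) ∉ P ^ (e + 1)

/-- the automorphism `σ` of `L β` acts trivially modulo `P ^ s`, for some prime ideal `P` above `p` -/
def IsInertia (β : ℝ) (p s : ℕ) (σ : L β ≃ₐ[ℚ] L β) : Prop :=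
  ∃ P : Ideal (𝓞 (L β)), P.IsPrime ∧ (p : 𝓞 (L β)) ∈ P ∧ ∀ x : 𝓞 (L β), σ • x - x ∈ P ^ s

/-- the number of the conjugates of `σ` in the Galois group of `L β` -/
noncomputable def k (β : ℝ) (σ : L β ≃ₐ[ℚ] L β) : ℕ :=
  {τ : L β ≃ₐ[ℚ] L β | ∃ g : L β ≃ₐ[ℚ] L β, τ = g * σ * g⁻¹}.ncard

/-- the data: `p` is a prime number with ramification indices at most `e` in `L β`, `s ≥ 1`, and there
is an automorphism `σ ≠ 1` of `L β` which acts trivially modulo `P ^ s` for a prime ideal `P` above `p`,
such that its number `k` of conjugates satisfies `k ≤ w` and `e k ≤ s w` -/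
def FewInertia (β : ℝ) (p s e w : ℕ) : Prop :=
  p.Prime ∧ 1 ≤ s ∧ RamificationLE β p e ∧ ∃ σ : L β ≃ₐ[ℚ] L β, σ ≠ 1 ∧ IsInertia β p s σ ∧
    k β σ ≤ w ∧ e * k β σ ≤ s * w

/-- **Main result.** -/
theorem result : ∃ c : ℝ, 0 < c ∧ ∀ p s e w : ℕ,
    (∀ β : ℝ, IsSalem β → FewInertia β p s e w → c * (minpoly ℤ β).natDegree ≤
      w * Real.exp (3 * Real.sqrt (Real.log (2 * w))) * Real.log β) ∧
    (∀ β : ℝ, IsPerron β → aeval β⁻¹ (minpoly ℤ β) = 0 → FewInertia β p s e w →
      w * Real.exp (3 * Real.sqrt (Real.log (2 * w))) * Real.log β <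
        c * (minpoly ℤ β).natDegree → (parryPowers β).Finite) := by
  obtain ⟨C, hC, h⟩ := Pool.Agent.Run7.h22.salem_main_in
  have hS : ∀ p s e w : ℕ, ∀ β : ℝ, IsSalem β → FewInertia β p s e w →
      1 / C * (minpoly ℤ β).natDegree ≤
      w * Real.exp (3 * Real.sqrt (Real.log (2 * w))) * Real.log β := by
    rintro p s e w β ⟨h1, h2, h3, h4⟩ ⟨hp, hs, hram, σ, hσ1, ⟨P, hP1, hP2, hP3⟩, hk1, hk2⟩
    have : NumberField (L β) := Pool.Agent.Run7.h22.numberField_splitting _
    have : IsGalois ℚ (L β) := Pool.Agent.Run7.h22.isGalois_splitting _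
    have hspl : ((minpoly ℤ (β + β⁻¹)).map (Int.castRingHom ℚ)).IsSplittingField ℚ (L β) := by
      convert Polynomial.IsSplittingField.splittingField
        ((minpoly ℤ (β + β⁻¹)).map (Int.castRingHom ℚ))
      exact Subsingleton.elim _ _
    have h5 := h β h1 h2 h3 h4 p s e w hp hs (L β) hspl hram σ P hσ1
      ⟨hP1, hP2, fun x => by rw [pow_one]; exact hP3 x⟩ hk1 hk2
    rw [one_div_mul_eq_div, div_le_iff₀ hC]
    refine h5.trans (le_of_eq ?_)
    ring
  refine ⟨1 / C, by positivity, fun p s e w => ⟨hS p s e w, ?_⟩⟩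
  rintro β ⟨h1, h2, h3⟩ h4 hfew hlt
  by_contra hinf
  have hinf' : (parryPowers β).Infinite := hinf
  have h5 := hS p s e w β ⟨h1, h2, h4, fun z hz hne =>
    Pool.Agent.H196R3.Parry.conj_le_one h1 h2 h3 hinf' hz hne⟩ hfew
  linarith

end Pool.Agent.Results.MP_1f45fc_nt.InertiaTraceField
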