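import Mathlib
import Pool.Agent.Run7.h816.MG.Sal

/-!
# Salem numbers of small degree over fields with few Frobenius automorphisms, and Parry powers

Let `E` be any number field which is Galois over `ℚ`, let `p` be a prime number with ramification
indices at most `e` in `E`, let `a ≥ 1`, and let `k` be the number of the automorphisms of `E` which
are congruent to `x ↦ x ^ (p ^ a)` modulo some prime ideal of `E` above `p` (the `a`-th powers of the
Frobenius automorphisms above `p`, if `p` is unramified). The weight is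

  `w = p ^ (a + 1) D ^ 9 e k exp (18 √(log (2 e k) log (2 D)))`.

1. For every Salem number `β` of degree `n` and of degree at most `D` over `E`,
   `log β ≥ c n / w` with an absolute constant `c > 0`.
2. If `β > 1` is a Perron number of degree `n`, and of degree at most `D` over `E`, such that `β⁻¹` is a
   conjugate of `β`, and `w log β < c n`, then only finitely many powers of `β` are Parry numbers.
3. For all `ε > 0`, `D` and `B` there are only finitely many Salem numbers `β ≤ B` which have degree at
   most `D` over some such field `E`, with `p ^ (a + 1) e k ≤ n ^ (1 - ε)` for some `p`, `a` and `e`. So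
   all but finitely many of them are larger than Lehmer's number.

The trace field `ℚ(β + β⁻¹)` can be any extension of degree at most `D / 2` of a subfield of `E`; for
`D ≥ 4` its Galois closure can be larger than `E` by a factor exponential in `n`, and can have
exponentially many Frobenius automorphisms, and `p` can be ramified in it in any way. (The case where
the trace field is contained in `E` is `FewFrobeniusTraceField`, with better constants.)

Method. Let `K` be a Galois number field which contains `E` and a conjugate `α` of `β`, with Galois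
group `N` over `E`. If `α` has `r` multiplicatively independent conjugates `B_j`, with `r` of the order
of `√(log (2 e k) / log (2 D))`, one considers the products `w` of the numbers `B_j ^ q / σ B_j`,
`q = p ^ a`, with small exponents. For primes whose Frobenius automorphism is in the coset `σ N` there
are at most `D ^ r` possibilities for the images of the `B_j`, and for some choice many differences
`x = w - w'` lie in a large part of the primes of `K` above `p`. The product `y` of the conjugates of
`x` under `N` is in `E`; its order at a prime of `E` above `p` is that of `p` divided by at most `e`, so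
that the norm of `x` has a lower bound which does not depend on the ramification of `p` in `K / E`. If
there are fewer independent conjugates, a product of at most `D` conjugates of `α` with the same
absolute values as a power of `α` is in a field of degree at most `D ^ r` over `E`, and the theorem for
fields with bounded ramification indices is applied to it.
-/

set_option autoImplicit false

open Polynomial NumberField

namespace Pool.Agent.Results.MP_1f45fc_nt.SmallDegreeOverFewFrobenius

/-- `β` is a Perron number -/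
def IsPerron (β : ℝ) : Prop :=
  1 < β ∧ IsIntegral ℤ β ∧ ∀ z : ℂ, aeval z (minpoly ℤ β) = 0 → z ≠ (β : ℂ) → ‖z‖ < β

/-- `β > 1` is an algebraic integer, the other conjugates lie in the closed unit disc and `β⁻¹` is one
of them: `β` is a Salem number or a quadratic unit -/
def IsSalem (β : ℝ) : Prop :=
  1 < β ∧ IsIntegral ℤ β ∧ aeval β⁻¹ (minpoly ℤ β) = 0 ∧
    ∀ z : ℂ, aeval z (minpoly ℤ β) = 0 → z ≠ (β : ℂ) → ‖z‖ ≤ 1

/-- the set of the `m ≥ 1` such that `β ^ m` is a Parry number -/
def parryPowers (β : ℝ) : Set ℕ :=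
  {m : ℕ | 1 ≤ m ∧ Set.Finite (Set.range (fun k : ℕ =>
    (fun y : ℝ => Int.fract (β ^ m * y))^[k] (1 : ℝ)))}

/-- the automorphisms of the number field `E` which are congruent to the map `x ↦ x ^ (p ^ a)` modulo
some prime ideal above `p` -/
def frobenii (E : Type) [Field E] [NumberField E] (p a : ℕ) : Set (E ≃ₐ[ℚ] E) :=
  {σ | ∃ 𝔓 : Ideal (𝓞 E), 𝔓.IsPrime ∧ (p : 𝓞 E) ∈ 𝔓 ∧ ∀ x : 𝓞 E, σ • x - x ^ (p ^ a) ∈ 𝔓}

/-- all ramification indices of prime ideals of `E` above `p` are at most `e` -/
def RamificationLE (E : Type) [Field E] [NumberField E] (p e : ℕ) : Prop :=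
  ∀ 𝔓 : Ideal (𝓞 E), 𝔓.IsPrime → (p : 𝓞 E) ∈ 𝔓 → (p : 𝓞 E) ∉ 𝔓 ^ (e + 1)

/-- The minimal polynomial of `β` has a factor of degree at least one and at most `D` over `E`. (For a
Galois extension `E` of `ℚ` this means that `β` has degree at most `D` over the image of `E` in `ℂ`.) -/
def DegreeLE (E : Type) [Field E] [NumberField E] (β : ℝ) (D : ℕ) : Prop :=
  ∃ P : E[X], P ∣ (minpoly ℤ β).map (algebraMap ℤ E) ∧ 1 ≤ P.natDegree ∧ P.natDegree ≤ D

/-- `p ^ (a + 1) e k`, where `k` is the number of the automorphisms in `frobenii E p a` -/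
noncomputable def cost (E : Type) [Field E] [NumberField E] (p a e : ℕ) : ℕ :=
  p ^ (a + 1) * (e * (frobenii E p a).ncard)

/-- the number `p ^ (a + 1) D ^ 9 e k exp (18 √(log (2 e k) log (2 D)))` -/
noncomputable def weight (E : Type) [Field E] [NumberField E] (p a e D : ℕ) : ℝ :=
  cost E p a e * (D : ℝ) ^ 9 *
    Real.exp (18 * Real.sqrt (Real.log (2 * (e * (frobenii E p a).ncard)) * Real.log (2 * D)))

/-- the Salem numbers at most `B` which have degree at most `D` over a Galois number field `E` such
that `p ^ (a + 1) e k ≤ n ^ (1 - ε)`, `n` the degree of `β`, for some prime number `p` with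
ramification indices at most `e ≥ 1` in `E`, and some `a ≥ 1` -/
def smallSalem (ε B : ℝ) (D : ℕ) : Set ℝ :=
  {β | IsSalem β ∧ β ≤ B ∧ ∃ (E : Type) (_ : Field E) (_ : NumberField E) (_ : IsGalois ℚ E)
    (p a e : ℕ), DegreeLE E β D ∧ p.Prime ∧ 1 ≤ a ∧ 1 ≤ e ∧ RamificationLE E p e ∧
    (cost E p a e : ℝ) ≤ ((minpoly ℤ β).natDegree : ℝ) ^ (1 - ε)}

/-- a bound for the exponential factor -/
lemma exp_factor (ε : ℝ) (hε : 0 < ε) (n : ℕ) : ∃ B : ℝ, 0 < B ∧ ∀ x m : ℝ, 1 ≤ x → x ≤ m →
    Real.exp (18 * Real.sqrt (Real.log (2 * x) * Real.log (2 * n))) ≤ B * m ^ (ε / 2) := by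
  have hL : 0 ≤ |Real.log (2 * n)| := abs_nonneg _
  refine ⟨Real.exp (ε / 2 * Real.log 2 + 162 * |Real.log (2 * n)| / ε), Real.exp_pos _, ?_⟩
  intro x m hx hxm
  have hm : 0 < m := by linarith
  have hlx : 0 ≤ Real.log (2 * x) := Real.log_nonneg (by linarith)
  have h1 : Real.sqrt (Real.log (2 * x) * Real.log (2 * n)) ≤
      Real.sqrt (Real.log (2 * m) * |Real.log (2 * n)|) := by
    apply Real.sqrt_le_sqrt
    have h2 : Real.log (2 * x) ≤ Real.log (2 * m) := Real.log_le_log (by linarith) (by linarith)
    calc Real.log (2 * x) * Real.log (2 * n) ≤ Real.log (2 * x) * |Real.log (2 * n)| :=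
          mul_le_mul_of_nonneg_left (le_abs_self _) hlx
      _ ≤ _ := mul_le_mul_of_nonneg_right h2 hL
  have hlm : 0 ≤ Real.log (2 * m) := Real.log_nonneg (by linarith)
  have h3 : 18 * Real.sqrt (Real.log (2 * m) * |Real.log (2 * n)|) ≤
      ε / 2 * Real.log (2 * m) + 162 * |Real.log (2 * n)| / ε := by
    set y := Real.sqrt (Real.log (2 * m)) with hy
    set z := Real.sqrt |Real.log (2 * n)| with hz
    have hy2 : y ^ 2 = Real.log (2 * m) := Real.sq_sqrt hlm
    have hz2 : z ^ 2 = |Real.log (2 * n)| := Real.sq_sqrt hL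
    rw [Real.sqrt_mul hlm, ← hy, ← hz, ← hy2, ← hz2]
    have h4 : ε / 2 * y ^ 2 + 162 * z ^ 2 / ε - 18 * (y * z) = (ε * y - 18 * z) ^ 2 / (2 * ε) := by
      field_simp
      ring
    have h5 : 0 ≤ (ε * y - 18 * z) ^ 2 / (2 * ε) := by positivity
    linarith
  have h6 : m ^ (ε / 2) = Real.exp (ε / 2 * Real.log m) := by
    rw [Real.rpow_def_of_pos hm, mul_comm]
  rw [h6, ← Real.exp_add]
  apply Real.exp_le_exp.mpr
  have h7 : Real.log (2 * m) = Real.log 2 + Real.log m :=
    Real.log_mul (by norm_num) hm.ne'
  have h8 : ε / 2 * Real.log (2 * m) = ε / 2 * Real.log 2 + ε / 2 * Real.log m := by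
    rw [h7, mul_add]
  linarith

/-- the bound of the helper file in terms of the weight -/
lemma fac_eq (C : ℝ) (E : Type) [Field E] [NumberField E] (p a e D : ℕ) :
    C * (p : ℝ) ^ (a + 1) * Pool.Agent.Run7.h816.MG.fac D
      (e * (Pool.Agent.Run7.h22.frobSet E p (p ^ a)).ncard) = C * weight E p a e D := by
  have h1 : Pool.Agent.Run7.h22.frobSet E p (p ^ a) = frobenii E p a := rfl
  rw [h1]
  unfold Pool.Agent.Run7.h816.MG.fac weight cost
  push_cast
  ring

/-- **Main result.** -/
theorem result :
    (∃ c : ℝ, 0 < c ∧ ∀ (E : Type) [Field E] [NumberField E] [IsGalois ℚ E] (p a e D : ℕ),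
      p.Prime → 1 ≤ a → 1 ≤ e → RamificationLE E p e →
      (∀ β : ℝ, IsSalem β → DegreeLE E β D →
        c * (minpoly ℤ β).natDegree ≤ weight E p a e D * Real.log β) ∧
      (∀ β : ℝ, IsPerron β → aeval β⁻¹ (minpoly ℤ β) = 0 → DegreeLE E β D →
        weight E p a e D * Real.log β < c * (minpoly ℤ β).natDegree → (parryPowers β).Finite)) ∧
    ∀ (ε B : ℝ) (D : ℕ), 0 < ε → (smallSalem ε B D).Finite := by
  obtain ⟨C, hC, h⟩ := Pool.Agent.Run7.h816.MG.salem_rel
  have hS : ∀ (E : Type) [Field E] [NumberField E] [IsGalois ℚ E] (p a e D : ℕ),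
      p.Prime → 1 ≤ a → 1 ≤ e → RamificationLE E p e →
      ∀ β : ℝ, IsSalem β → DegreeLE E β D →
        1 / C * (minpoly ℤ β).natDegree ≤ weight E p a e D * Real.log β := by
    rintro E _ _ _ p a e D hp ha he hram β ⟨h1, h2, h3, h4⟩ ⟨P, hP, hP1, hPD⟩
    have h5 := h E p a hp ha e he hram β h1 h2 h3 h4 P hP hP1 D hPD
    rw [fac_eq] at h5
    rw [one_div_mul_eq_div, div_le_iff₀ hC]
    linarith
  refine ⟨⟨1 / C, by positivity, fun E _ _ _ p a e D hp ha he hram =>
    ⟨hS E p a e D hp ha he hram, ?_⟩⟩, ?_⟩
  · rintro β ⟨h1, h2, h3⟩ h4 hD hlt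
    by_contra hinf
    have hinf' : (parryPowers β).Infinite := hinf
    have h5 := hS E p a e D hp ha he hram β ⟨h1, h2, h4, fun z hz hne =>
      Pool.Agent.H196R3.Parry.conj_le_one h1 h2 h3 hinf' hz hne⟩ hD
    linarith
  · intro ε B D hε
    obtain ⟨A, hA, hexp⟩ := exp_factor ε hε D
    set X : ℝ := C * ((D : ℝ) ^ 9 * A * |Real.log B|) with hX
    have hX0 : 0 ≤ X := by positivity
    -- the degrees are bounded
    have hdeg : ∀ β ∈ smallSalem ε B D, ((minpoly ℤ β).natDegree : ℝ) ≤ X ^ (2 / ε) := by
      rintro β ⟨hβ, hβB, E, _, _, _, p, a, e, hD, hp, ha, he, hram, hcost⟩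
      have h1 := hS E p a e D hp ha he hram β hβ hD
      obtain ⟨hβ1, hint, -, -⟩ := hβ
      have hn1 : 0 < (minpoly ℤ β).natDegree := minpoly.natDegree_pos hint
      set n : ℝ := ((minpoly ℤ β).natDegree : ℝ) with hn
      have hn1R : (1 : ℝ) ≤ n := by
        rw [hn]
        exact_mod_cast hn1
      have hn0 : 0 < n := by linarith
      have hlog : 0 < Real.log β := Real.log_pos hβ1
      have hlogB : Real.log β ≤ |Real.log B| :=
        (Real.log_le_log (by linarith) hβB).trans (le_abs_self _)
      rcases Nat.eq_zero_or_pos (e * (frobenii E p a).ncard) with h0 | h0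
      · have h2 : weight E p a e D = 0 := by
          unfold weight cost
          rw [h0, mul_zero, Nat.cast_zero, zero_mul, zero_mul]
        rw [h2, zero_mul, one_div_mul_eq_div] at h1
        have h3 : 0 < n / C := by positivity
        linarith
      · have hx1 : (1 : ℝ) ≤ (e : ℝ) * (frobenii E p a).ncard := by exact_mod_cast h0
        have hxn : (e : ℝ) * (frobenii E p a).ncard ≤ n := by
          have hpR : (1 : ℝ) ≤ (p : ℝ) ^ (a + 1) := one_le_pow₀ (by exact_mod_cast hp.one_lt.le)
          calc (e : ℝ) * (frobenii E p a).ncard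
              ≤ (p : ℝ) ^ (a + 1) * (e * (frobenii E p a).ncard) :=
                le_mul_of_one_le_left (by linarith) hpR
            _ = (cost E p a e : ℝ) := by
                unfold cost
                push_cast
                ring
            _ ≤ n ^ (1 - ε) := hcost
            _ ≤ n ^ (1 : ℝ) := Real.rpow_le_rpow_of_exponent_le hn1R (by linarith)
            _ = n := Real.rpow_one _
        have h2 := hexp _ _ hx1 hxn
        have h3 : weight E p a e D * Real.log β ≤
            n ^ (1 - ε / 2) * ((D : ℝ) ^ 9 * A * |Real.log B|) := by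
          unfold weight
          calc (cost E p a e : ℝ) * (D : ℝ) ^ 9 * Real.exp (18 * Real.sqrt
                (Real.log (2 * (e * (frobenii E p a).ncard)) * Real.log (2 * D))) * Real.log β
              ≤ n ^ (1 - ε) * (D : ℝ) ^ 9 * (A * n ^ (ε / 2)) * |Real.log B| := by gcongr
            _ = (n ^ (1 - ε) * n ^ (ε / 2)) * ((D : ℝ) ^ 9 * A * |Real.log B|) := by ring
            _ = _ := by
                rw [← Real.rpow_add hn0]
                congr 2
                ring
        have h4 : n ≤ X * n ^ (1 - ε / 2) := by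
          have h5 := h1.trans h3
          rw [one_div_mul_eq_div, div_le_iff₀ hC] at h5
          rw [hX]
          linarith
        have h5 : n = n ^ (ε / 2) * n ^ (1 - ε / 2) := by
          rw [← Real.rpow_add hn0]
          rw [show ε / 2 + (1 - ε / 2) = 1 by ring, Real.rpow_one]
        have h6 : n ^ (ε / 2) ≤ X :=
          le_of_mul_le_mul_right (h5.symm.trans_le h4) (Real.rpow_pos_of_pos hn0 _)
        calc n = (n ^ (ε / 2)) ^ (2 / ε) := by
              rw [← Real.rpow_mul hn0.le, show ε / 2 * (2 / ε) = 1 by field_simp, Real.rpow_one]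
          _ ≤ X ^ (2 / ε) := Real.rpow_le_rpow (by positivity) h6 (by positivity)
    -- the minimal polynomials form a finite set
    refine ((Polynomial.finite_mahlerMeasure_le ⌊X ^ (2 / ε)⌋₊ B.toNNReal).biUnion
      (t := fun q => q.rootSet ℝ) (fun q _ => Polynomial.rootSet_finite q ℝ)).subset ?_
    intro β hβ
    obtain ⟨h1, h2, h3, h4⟩ := hβ.1
    have hMM : ((minpoly ℤ β).map (Int.castRingHom ℂ)).mahlerMeasure = β :=
      Pool.Agent.H196R3.Parry.mahler_eq h1 h2 h4
    rw [Set.mem_iUnion₂]
    refine ⟨minpoly ℤ β, ⟨Nat.le_floor (hdeg β hβ), ?_⟩, ?_⟩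
    · rw [hMM, Real.coe_toNNReal _ (by linarith [hβ.2.1])]
      exact hβ.2.1
    · rw [mem_rootSet]
      exact ⟨minpoly.ne_zero h2, minpoly.aeval ℤ β⟩

end Pool.Agent.Results.MP_1f45fc_nt.SmallDegreeOverFewFrobenius
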